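import Pool.Agent.Lib_helper74.CKF.Defs

/-!
# Finite reflection relative to an oracle (MP_5c38ab_lc): definitions

Arithmetical theories relative to an oracle `O`, in a fixed finite language interpreted on `ℕ`,
Hilbert proofs, their lengths, and the sentences `RFN_T(n)` and `Con_T(n)`.  Machines are the
while-programs with oracle of `Lib_helper74/CKF/Defs.lean`.
-/

set_option autoImplicit false

namespace Pool.Agent.RF

open Pool.Agent.CK

/-- The number of a bit string (bijective base 2; the first bit is the least significant one). -/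
def val : List Bool → ℕ
  | [] => 0
  | b :: l => 2 * val l + (if b = true then 2 else 1)

/-! ## Syntax -/

/-- Terms: variables, `0`, `S`, `⌊t/2⌋`, `|t|`, `+`, `·`, `#` and the substitution function `sbn`
(`sbn e x z` is the Gödel number of the sentence `μ₁(e, x, z)` with numerals substituted). -/
inductive Tm : Type
  | var (i : ℕ)
  | zero
  | succ (t : Tm)
  | half (t : Tm)
  | len (t : Tm)
  | add (s t : Tm)
  | mul (s t : Tm)
  | smash (s t : Tm)
  | sbn (r s t : Tm)

/-- Formulas.  `orc t`: the string with number `t` is in the oracle.  `tr e x w z`: the program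
with code `e` accepts the inputs `x`, `w` in `|z|` steps.  `prf p z u v`: `u` is a proof of the
formula `v` from the axioms that are accepted by the program with code `p` in `|z|` steps. -/
inductive Fm : Type
  | eq (s t : Tm)
  | le (s t : Tm)
  | orc (t : Tm)
  | tr (e x w z : Tm)
  | prf (p z u v : Tm)
  | neg (φ : Fm)
  | imp (φ ψ : Fm)
  | all (i : ℕ) (φ : Fm)

/-- conjunction -/
def Fm.and (φ ψ : Fm) : Fm := Fm.neg (Fm.imp φ (Fm.neg ψ))

/-- falsum: `0 ≠ 0` -/
def falsum : Fm := Fm.neg (Fm.eq Tm.zero Tm.zero)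

/-- the variable `i` occurs in the term -/
def Tm.has (i : ℕ) : Tm → Prop
  | .var j => j = i
  | .zero => False
  | .succ t => t.has i
  | .half t => t.has i
  | .len t => t.has i
  | .add s t => s.has i ∨ t.has i
  | .mul s t => s.has i ∨ t.has i
  | .smash s t => s.has i ∨ t.has i
  | .sbn r s t => r.has i ∨ s.has i ∨ t.has i

/-- the variable `i` occurs free in the formula -/
def Fm.free (i : ℕ) : Fm → Prop
  | .eq s t => s.has i ∨ t.has i
  | .le s t => s.has i ∨ t.has i
  | .orc t => t.has i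
  | .tr e x w z => e.has i ∨ x.has i ∨ w.has i ∨ z.has i
  | .prf p z u v => p.has i ∨ z.has i ∨ u.has i ∨ v.has i
  | .neg φ => φ.free i
  | .imp φ ψ => φ.free i ∨ ψ.free i
  | .all j φ => j ≠ i ∧ φ.free i

/-- sentences -/
def Fm.Closed (φ : Fm) : Prop := ∀ i, ¬ φ.free i

/-- substitution of the term `a` for the variable `i` in the term `t` -/
def Tm.sb (t : Tm) (i : ℕ) (a : Tm) : Tm :=
  match t with
  | .var j => if j = i then a else .var j
  | .zero => .zero
  | .succ t => .succ (t.sb i a)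
  | .half t => .half (t.sb i a)
  | .len t => .len (t.sb i a)
  | .add s t => .add (s.sb i a) (t.sb i a)
  | .mul s t => .mul (s.sb i a) (t.sb i a)
  | .smash s t => .smash (s.sb i a) (t.sb i a)
  | .sbn r s t => .sbn (r.sb i a) (s.sb i a) (t.sb i a)

/-- substitution of the term `a` for the free occurrences of the variable `i` -/
def Fm.sb (i : ℕ) (a : Tm) : Fm → Fm
  | .eq s t => .eq (s.sb i a) (t.sb i a)
  | .le s t => .le (s.sb i a) (t.sb i a)
  | .orc t => .orc (t.sb i a)
  | .tr e x w z => .tr (e.sb i a) (x.sb i a) (w.sb i a) (z.sb i a)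
  | .prf p z u v => .prf (p.sb i a) (z.sb i a) (u.sb i a) (v.sb i a)
  | .neg φ => .neg (φ.sb i a)
  | .imp φ ψ => .imp (φ.sb i a) (ψ.sb i a)
  | .all j φ => if j = i then .all j φ else .all j (φ.sb i a)

/-- the term `a` is substitutable for the variable `i` -/
def Fm.Ok (i : ℕ) (a : Tm) : Fm → Prop
  | .eq _ _ => True
  | .le _ _ => True
  | .orc _ => True
  | .tr _ _ _ _ => True
  | .prf _ _ _ _ => True
  | .neg φ => φ.Ok i a
  | .imp φ ψ => φ.Ok i a ∧ ψ.Ok i a
  | .all j φ => j = i ∨ ¬ φ.free i ∨ (¬ a.has j ∧ φ.Ok i a)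

/-- atomic formulas -/
def Fm.Atomic : Fm → Prop
  | .eq _ _ => True
  | .le _ _ => True
  | .orc _ => True
  | .tr _ _ _ _ => True
  | .prf _ _ _ _ => True
  | .neg _ => False
  | .imp _ _ => False
  | .all _ _ => False

/-! ## Coding by bit strings -/

/-- a tag -/
def tag (k : ℕ) : List Bool := List.replicate k true ++ [false]

/-- the code of a term -/
def Tm.enc : Tm → List Bool
  | .var i => tag 0 ++ tag i
  | .zero => tag 1
  | .succ t => tag 2 ++ t.enc
  | .half t => tag 3 ++ t.enc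
  | .len t => tag 4 ++ t.enc
  | .add s t => tag 5 ++ (s.enc ++ t.enc)
  | .mul s t => tag 6 ++ (s.enc ++ t.enc)
  | .smash s t => tag 7 ++ (s.enc ++ t.enc)
  | .sbn r s t => tag 8 ++ (r.enc ++ (s.enc ++ t.enc))

/-- the code of a formula -/
def Fm.enc : Fm → List Bool
  | .eq s t => tag 0 ++ (s.enc ++ t.enc)
  | .le s t => tag 1 ++ (s.enc ++ t.enc)
  | .orc t => tag 2 ++ t.enc
  | .tr e x w z => tag 3 ++ (e.enc ++ (x.enc ++ (w.enc ++ z.enc)))
  | .prf p z u v => tag 4 ++ (p.enc ++ (z.enc ++ (u.enc ++ v.enc)))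
  | .neg φ => tag 5 ++ φ.enc
  | .imp φ ψ => tag 6 ++ (φ.enc ++ ψ.enc)
  | .all i φ => tag 7 ++ (tag i ++ φ.enc)

/-- the code of a program -/
def cEnc : Cmd → List Bool
  | .skip => tag 0
  | .push r b => tag 1 ++ (tag r ++ [b])
  | .pop r => tag 2 ++ tag r
  | .seq c d => tag 3 ++ (cEnc c ++ cEnc d)
  | .cond r b c d => tag 4 ++ (tag r ++ (cEnc b ++ (cEnc c ++ cEnc d)))
  | .loop r c => tag 5 ++ (tag r ++ cEnc c)
  | .ask r c d => tag 6 ++ (tag r ++ (cEnc c ++ cEnc d))

/-- the code of a list of formulas (codes of formulas are prefix-free) -/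
def pEnc (l : List Fm) : List Bool := (l.map Fm.enc).flatten

/-! ## Numerals, the universal formula, reflection and consistency -/

/-- The numeral of `n` (bijective base 2), of length `O(log n)`. -/
def num : ℕ → Tm
  | 0 => Tm.zero
  | n + 1 => if n % 2 = 0 then Tm.succ (Tm.mul (Tm.succ (Tm.succ Tm.zero)) (num (n / 2)))
      else Tm.succ (Tm.succ (Tm.mul (Tm.succ (Tm.succ Tm.zero)) (num (n / 2))))
decreasing_by all_goals omega

/-- The universal formula `μ₁(e, x, z)`: there is `w ≤ z` such that the program `e` accepts the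
inputs `x`, `w` in `|z|` steps.  (The terms must not contain the variable `4`.) -/
def mu (e x z : Tm) : Fm :=
  Fm.neg (Fm.all 4 (Fm.neg (Fm.and (Fm.le (Tm.var 4) z) (Fm.tr e x (Tm.var 4) z))))

/-- a term of length at least `(|t| + 2) ^ k` -/
def clk : ℕ → Tm → Tm
  | 0, _ => Tm.succ Tm.zero
  | k + 1, t => Tm.smash (clk k t)
      (Tm.succ (Tm.mul (Tm.succ (Tm.succ Tm.zero))
        (Tm.succ (Tm.mul (Tm.succ (Tm.succ Tm.zero)) t))))

/-- Presentations of theories: a program (which decides the axioms) and an exponent (for its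
running time). -/
abbrev Th : Type := Cmd × ℕ

/-- `Pr_T(u, v)`: `u` is a proof in `T` of the formula with Gödel number `v` -/
def Pr (T : Th) (u v : Tm) : Fm := Fm.prf (num (val (cEnc T.1))) (clk T.2 u) u v

/-- `Σ^b_1RFN_T(n)`: for all `e, u, x, z` of length at most `n`, if `u` is a proof in `T` of
`μ₁(e, x, z)` then `μ₁(e, x, z)`. -/
def RFN (T : Th) (n : ℕ) : Fm :=
  Fm.all 0 (Fm.all 1 (Fm.all 2 (Fm.all 3 (Fm.imp
    (Fm.and (Fm.le (Tm.len (Tm.var 0)) (num n)) (Fm.and (Fm.le (Tm.len (Tm.var 1)) (num n))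
      (Fm.and (Fm.le (Tm.len (Tm.var 2)) (num n)) (Fm.and (Fm.le (Tm.len (Tm.var 3)) (num n))
        (Pr T (Tm.var 1) (Tm.sbn (Tm.var 0) (Tm.var 2) (Tm.var 3)))))))
    (mu (Tm.var 0) (Tm.var 2) (Tm.var 3))))))

/-- `Con_T(n)`: no proof in `T` of length at most `n` is a proof of falsum. -/
def Con (T : Th) (n : ℕ) : Fm :=
  Fm.all 1 (Fm.imp (Fm.le (Tm.len (Tm.var 1)) (num n))
    (Fm.neg (Pr T (Tm.var 1) (num (val falsum.enc)))))

/-! ## The proof calculus -/

/-- The logical axioms (as in Enderton's textbook, with the propositional axioms of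
Łukasiewicz): all generalizations of the following formulas. -/
inductive Logical : Fm → Prop
  | k (φ ψ : Fm) : Logical (.imp φ (.imp ψ φ))
  | s (φ ψ χ : Fm) : Logical (.imp (.imp φ (.imp ψ χ)) (.imp (.imp φ ψ) (.imp φ χ)))
  | c (φ ψ : Fm) : Logical (.imp (.imp (.neg φ) (.neg ψ)) (.imp ψ φ))
  | inst (i : ℕ) (φ : Fm) (a : Tm) (h : φ.Ok i a) : Logical (.imp (.all i φ) (φ.sb i a))
  | dist (i : ℕ) (φ ψ : Fm) :
      Logical (.imp (.all i (.imp φ ψ)) (.imp (.all i φ) (.all i ψ)))
  | vac (i : ℕ) (φ : Fm) (h : ¬ φ.free i) : Logical (.imp φ (.all i φ))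
  | refl (t : Tm) : Logical (.eq t t)
  | leib (i : ℕ) (φ : Fm) (s t : Tm) (h : φ.Atomic) :
      Logical (.imp (.eq s t) (.imp (φ.sb i s) (φ.sb i t)))
  | gen (i : ℕ) (φ : Fm) (h : Logical φ) : Logical (.all i φ)

/-- The list is a proof from the axioms `A`: every entry is a logical axiom, or in `A`, or
follows by modus ponens from two earlier entries. -/
def IsProof (A : Fm → Prop) (l : List Fm) : Prop :=
  ∀ (i : ℕ) (φ : Fm), l[i]? = some φ → Logical φ ∨ A φ ∨
    ∃ (j k : ℕ) (ψ : Fm), j < i ∧ k < i ∧ l[j]? = some ψ ∧ l[k]? = some (Fm.imp ψ φ)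

/-- `φ` is provable from the axioms `A`. -/
def Provable (A : Fm → Prop) (φ : Fm) : Prop := ∃ l : List Fm, IsProof A (l ++ [φ])

/-! ## The theory `S^1_2` (in the language with the oracle) -/

/-- disjunction -/
def Fm.or (φ ψ : Fm) : Fm := Fm.imp (Fm.neg φ) ψ

/-- equivalence -/
def Fm.iff (φ ψ : Fm) : Fm := Fm.and (Fm.imp φ ψ) (Fm.imp ψ φ)

/-- twice a term -/
def Tm.dbl (t : Tm) : Tm := Tm.mul (Tm.succ (Tm.succ Tm.zero)) t

section Basic

open Tm Fm

/-- Buss's 32 axioms BASIC (with the variables `0, 1, 2, 3` for `x, y, z, u`). -/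
def basicAxioms : List Fm :=
  let x := var 0
  let y := var 1
  let z := var 2
  let u := var 3
  let one := succ zero
  [ imp (le y x) (le y (succ x)),
    neg (eq x (succ x)),
    le zero x,
    (and (le x y) (neg (eq x y))).iff (le (succ x) y),
    imp (neg (eq x zero)) (neg (eq x.dbl zero)),
    (le x y).or (le y x),
    imp (and (le x y) (le y x)) (eq x y),
    imp (and (le x y) (le y z)) (le x z),
    eq (len zero) zero,
    imp (neg (eq x zero)) (and (eq (len x.dbl) (succ (len x)))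
      (eq (len (succ x.dbl)) (succ (len x)))),
    eq (len one) one,
    imp (le x y) (le (len x) (len y)),
    eq (len (smash x y)) (succ (mul (len x) (len y))),
    eq (smash zero x) one,
    imp (neg (eq x zero)) (and (eq (smash one x.dbl) (smash one x).dbl)
      (eq (smash one (succ x.dbl)) (smash one x).dbl)),
    eq (smash x y) (smash y x),
    imp (eq (len x) (len y)) (eq (smash x z) (smash y z)),
    imp (eq (len x) (add (len z) (len u))) (eq (smash x y) (mul (smash z y) (smash u y))),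
    le x (add x y),
    imp (and (le x y) (neg (eq x y))) (and (le (succ x.dbl) y.dbl) (neg (eq (succ x.dbl) y.dbl))),
    eq (add x y) (add y x),
    eq (add x zero) x,
    eq (add x (succ y)) (succ (add x y)),
    eq (add (add x y) z) (add x (add y z)),
    (le (add x y) (add x z)).iff (le y z),
    eq (mul x zero) zero,
    eq (mul x (succ y)) (add (mul x y) x),
    eq (mul x y) (mul y x),
    eq (mul x (add y z)) (add (mul x y) (mul x z)),
    imp (le one x) ((le (mul x y) (mul x z)).iff (le y z)),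
    imp (neg (eq x zero)) (eq (len x) (succ (len (half x)))),
    (eq x (half y)).iff ((eq x.dbl y).or (eq (succ x.dbl) y)) ]

end Basic

/-- sharply bounded formulas -/
inductive Sb0 : Fm → Prop
  | atom (φ : Fm) (h : φ.Atomic) : Sb0 φ
  | neg (φ : Fm) (h : Sb0 φ) : Sb0 (.neg φ)
  | imp (φ ψ : Fm) (h : Sb0 φ) (h' : Sb0 ψ) : Sb0 (.imp φ ψ)
  | all (i : ℕ) (t : Tm) (φ : Fm) (ht : ¬ t.has i) (h : Sb0 φ) :
      Sb0 (.all i (.imp (.le (.var i) (.len t)) φ))

/-- `Sb1 true` is the class of the `Σ^b_1` formulas, `Sb1 false` that of the `Π^b_1` formulas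
(`∃ x ≤ t` is `¬ ∀ x ≤ t ¬`). -/
inductive Sb1 : Bool → Fm → Prop
  | base (b : Bool) (φ : Fm) (h : Sb0 φ) : Sb1 b φ
  | neg (b : Bool) (φ : Fm) (h : Sb1 (!b) φ) : Sb1 b (.neg φ)
  | imp (b : Bool) (φ ψ : Fm) (h : Sb1 (!b) φ) (h' : Sb1 b ψ) : Sb1 b (.imp φ ψ)
  | sharp (b : Bool) (i : ℕ) (t : Tm) (φ : Fm) (ht : ¬ t.has i) (h : Sb1 b φ) :
      Sb1 b (.all i (.imp (.le (.var i) (.len t)) φ))
  | bdd (i : ℕ) (t : Tm) (φ : Fm) (ht : ¬ t.has i) (h : Sb1 false φ) :
      Sb1 false (.all i (.imp (.le (.var i) t) φ))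

/-- the formula of `φ(0) ∧ ∀ x (φ(⌊x/2⌋) → φ(x)) → ∀ x φ(x)`, `x` the variable `i` -/
def pind (i : ℕ) (φ : Fm) : Fm :=
  .imp (φ.sb i .zero) (.imp (.all i (.imp (φ.sb i (.half (.var i))) φ)) (.all i φ))

/-- generalizations of a formula -/
inductive Gen (φ : Fm) : Fm → Prop
  | refl : Gen φ φ
  | all (i : ℕ) (ψ : Fm) (h : Gen φ ψ) : Gen φ (.all i ψ)

/-- The axioms of `S^1_2`: the closed generalizations of the axioms BASIC and of the axioms of
length induction PIND for `Σ^b_1` formulas (which may contain the symbols `orc`, `tr`, `prf` and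
`sbn`). -/
def S12 (σ : Fm) : Prop := σ.Closed ∧
  ∃ φ, Gen φ σ ∧ (φ ∈ basicAxioms ∨ ∃ (i : ℕ) (ψ : Fm), Sb1 true ψ ∧ φ = pind i ψ)

/-! ## Truth relative to an oracle -/

/-- The Gödel number of `μ₁(e, x, z)`. -/
def gmu (e x z : ℕ) : ℕ := val (mu (num e) (num x) (num z)).enc

/-- the value of a term -/
def Tm.ev (v : ℕ → ℕ) : Tm → ℕ
  | .var i => v i
  | .zero => 0
  | .succ t => t.ev v + 1
  | .half t => t.ev v / 2
  | .len t => Nat.size (t.ev v)
  | .add s t => s.ev v + t.ev v
  | .mul s t => s.ev v * t.ev v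
  | .smash s t => 2 ^ (Nat.size (s.ev v) * Nat.size (t.ev v))
  | .sbn r s t => gmu (r.ev v) (s.ev v) (t.ev v)

/-- The program with code `e` accepts `x`, `w` with oracle `O` in `|z|` steps. -/
def TrRel (O : Lang) (e x w z : ℕ) : Prop :=
  ∃ (c : Cmd) (a b : List Bool), val (cEnc c) = e ∧ val a = x ∧ val b = w ∧
    Accepts O c a b (Nat.size z)

/-- `u` is the number of a proof of the formula with number `v` from the axioms accepted with
oracle `O` in `|z|` steps by the program with code `p`. -/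
def PrfRel (O : Lang) (p z u v : ℕ) : Prop :=
  ∃ (c : Cmd) (l : List Fm) (φ : Fm), val (cEnc c) = p ∧ val (pEnc (l ++ [φ])) = u ∧
    val φ.enc = v ∧ IsProof (fun σ => Accepts O c σ.enc [] (Nat.size z)) (l ++ [φ])

/-- The formula holds in `ℕ`, with oracle `O`, under the assignment `v`. -/
def Fm.Holds (O : Lang) (v : ℕ → ℕ) : Fm → Prop
  | .eq s t => s.ev v = t.ev v
  | .le s t => s.ev v ≤ t.ev v
  | .orc t => ∃ x, val x = t.ev v ∧ O x = true
  | .tr e x w z => TrRel O (e.ev v) (x.ev v) (w.ev v) (z.ev v)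
  | .prf p z u w => PrfRel O (p.ev v) (z.ev v) (u.ev v) (w.ev v)
  | .neg φ => ¬ φ.Holds O v
  | .imp φ ψ => φ.Holds O v → ψ.Holds O v
  | .all i φ => ∀ a : ℕ, φ.Holds O (Function.update v i a)

/-- The formula is true in `ℕ` with oracle `O`. -/
def Fm.True (O : Lang) (φ : Fm) : Prop := ∀ v, φ.Holds O v

/-! ## Theories relative to an oracle -/

/-- The axioms of the theory presented by `T`. -/
def Ax (O : Lang) (T : Th) (σ : Fm) : Prop := Accepts O T.1 σ.enc [] ((σ.enc.length + 2) ^ T.2)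

/-- Base theories: sets of true sentences, decidable in polynomial time with oracle `O`, which
refute every false sentence `μ₁(e, x, z)` (with numerals) and `Σ^b_1RFN_T(n)`. -/
structure Base (O : Lang) (B : Fm → Prop) : Prop where
  closed : ∀ σ, B σ → σ.Closed
  isTrue : ∀ σ, B σ → σ.True O
  dec : ∃ T : Th, (∀ x, Halts O T.1 x [] ((x.length + 2) ^ T.2)) ∧ ∀ σ, Ax O T σ ↔ B σ
  refMu : ∀ e x z : ℕ, ¬ (mu (num e) (num x) (num z)).True O →
    Provable B (.neg (mu (num e) (num x) (num z)))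
  refRFN : ∀ (T : Th) (n : ℕ), ¬ (RFN T n).True O → Provable B (.neg (RFN T n))

/-- The class of the consistent theories that extend the base theory `B` and have a set of axioms
(sentences) decidable in polynomial time with oracle `O`. -/
structure InT (O : Lang) (B : Fm → Prop) (T : Th) : Prop where
  halts : ∀ x, Halts O T.1 x [] ((x.length + 2) ^ T.2)
  ext : ∀ σ, B σ → Ax O T σ
  closed : ∀ σ, Ax O T σ → σ.Closed
  cons : ¬ Provable (Ax O T) falsum

/-- For some polynomial `p`, all sentences `Φ n` have proofs in `S` of length at most `p(n)`. -/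
def PolyBounded (O : Lang) (S : Th) (Φ : ℕ → Fm) : Prop :=
  ∃ c : ℕ, ∀ n, ∃ l : List Fm, IsProof (Ax O S) (l ++ [Φ n]) ∧
    (pEnc (l ++ [Φ n])).length ≤ n ^ c + c

end Pool.Agent.RF
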