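import Pool.Agent.Lib_helper78.RF.Defs
import Pool.Agent.Lib_helper74.CKF.ENUM
import Pool.Agent.Lib_helper74.CKF.MACH
import Pool.Agent.Lib_helper74.CKF.ADDR
import Pool.Agent.Lib_helper74.CKF.PROG1

/-!
# Auxiliary definitions for the relativized separations (MP_5c38ab_lc)
-/

set_option autoImplicit false

namespace Pool.Agent.RF

open Pool.Agent.CK

/-! ## Semantic versions of the sentences -/

/-- `μ₁(e, x, z)` is true -/
def MuT (O : Lang) (e x z : ℕ) : Prop := ∃ w ≤ z, TrRel O e x w z

/-- the length of the clock term -/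
def clkS : ℕ → ℕ → ℕ
  | 0, _ => 1
  | k + 1, m => clkS k m * (m + 2) + 1

/-- `l` is a proof from the axioms accepted by `T` within the clock `clkS` -/
def TProof (O : Lang) (T : Th) (l : List Fm) : Prop :=
  IsProof (fun σ => Accepts O T.1 σ.enc [] (clkS T.2 (Nat.size (val (pEnc l))))) l

/-- `RFN_T(n)` is true -/
def RfnT (O : Lang) (T : Th) (n : ℕ) : Prop :=
  ∀ (e x z : ℕ) (l : List Fm), Nat.size e ≤ n → Nat.size x ≤ n → Nat.size z ≤ n →
    Nat.size (val (pEnc (l ++ [mu (num e) (num x) (num z)]))) ≤ n →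
    TProof O T (l ++ [mu (num e) (num x) (num z)]) → MuT O e x z

/-- `Con_T(n)` is true -/
def ConT (O : Lang) (T : Th) (n : ℕ) : Prop :=
  ∀ l : List Fm, Nat.size (val (pEnc (l ++ [falsum]))) ≤ n → ¬ TProof O T (l ++ [falsum])

/-- the dependency bound: `RFN_T(n)` and `Con_T(n)`, for `T` with exponent `k`, only depend on
the oracle below this length -/
def Dep (k n : ℕ) : ℕ := 3 * n + clkS k n + 1

/-- `O` and `O'` agree on the strings of length less than `N` -/
def Agree (N : ℕ) (O O' : Lang) : Prop := ∀ x : List Bool, x.length < N → O x = O' x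

/-! ## Padded sentences -/

/-- `S^m 0` -/
def succs : ℕ → Tm
  | 0 => .zero
  | m + 1 => .succ (succs m)

/-- the padded sentence `t = t → φ`, `t = S^m 0` -/
def pad (m : ℕ) (φ : Fm) : Fm := .imp (.eq (succs m) (succs m)) φ

/-! ## Programs -/

/-- push the string `τ` on stack `0` -/
def pushes : List Bool → Cmd
  | [] => .skip
  | b :: τ => .seq (pushes τ) (.push 0 b)

/-- remove `n` bits of stack `0` -/
def pops : ℕ → Cmd
  | 0 => .skip
  | n + 1 => .seq (.pop 0) (pops n)

/-- accept `x` if `τ ++ x` is in the oracle, otherwise run `p` -/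
def orAsk (τ : List Bool) (p : Cmd) : Cmd :=
  .seq (pushes τ) (.ask 0 (.seq (pops τ.length) p) (.push 0 true))

/-- exponent for `orAsk` -/
def exAsk (τ : List Bool) (k : ℕ) : ℕ := k + 4 * τ.length + 8

/-! ## Oracles defined by recursion on the length -/

/-- the operator is local -/
def Local (R : Lang → List Bool → Bool) : Prop :=
  ∀ (x : List Bool) (O O' : Lang), Agree x.length O O' → R O x = R O' x

/-- one step of the recursion: `Y` on the strings that start with `0` -/
def stepO (R : Lang → List Bool → Bool) (Y O : Lang) : Lang := fun x =>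
  if x.head? = some false then Y x else R O x

/-- the oracle with the region `Y` on the strings that start with `0` and the rest given by the
operator `R` -/
def mkO (R : Lang → List Bool → Bool) (Y : Lang) : Lang := fun x =>
  (stepO R Y)^[x.length + 1] (fun _ => false) x

/-- The content of the region for base theories: the axioms of `S^1_2` and sufficiently padded
negations of false sentences. -/
def BaseP (g : ℕ → ℕ) (O : Lang) (s : List Bool) : Prop :=
  (∃ σ, s = Fm.enc σ ∧ S12 σ) ∨
  (∃ (e x z m : ℕ), s = (pad m (.neg (mu (num e) (num x) (num z)))).enc ∧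
    g (Nat.size x + 2 * Nat.size z + 1) ≤ m ∧ ¬ MuT O e x z) ∨
  ∃ (T : Th) (n m : ℕ), s = (pad m (.neg (RFN T n))).enc ∧ g (Dep T.2 n) ≤ m ∧ ¬ RfnT O T n

open Classical in
/-- The operator with code region `C`, base region with gap function `g`, and third region `E`. -/
noncomputable def reg (C : Lang → List Bool → Prop) (g : ℕ → ℕ) (E : List Bool → Prop) (O : Lang) :
    Lang
  | true :: false :: s => decide (C O s)
  | true :: true :: false :: s => decide (BaseP g O s)
  | true :: true :: true :: s => decide (E s)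
  | _ => false

/-- the index of a theory -/
noncomputable def idx (T : Th) : ℕ := Nat.pair (Encodable.encode T.1) T.2

/-! ## The secret part -/

/-- length of the secret addresses of level `n` -/
def sl (n : ℕ) : ℕ := 2 * n + 2

/-! ## Parameters of oracle A -/

/-- code region A -/
def CodeA (n : ℕ → ℕ) (O : Lang) (s : List Bool) : Prop :=
  ∃ (T : Th) (m k : ℕ), s = (pad m (RFN T k)).enc ∧ Dep T.2 k ≤ m ∧
    sl (n ((idx T + 2) ^ 2)) ≤ m ∧ ∀ k' ≤ k, RfnT O T k'

/-- the index `T` is dead at the length `N` -/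
def DeadA (O : Lang) (T : Th) (N : ℕ) : Prop := ∃ k, Dep T.2 k ≤ N ∧ ¬ RfnT O T k

/-- a kill at stage `s` -/
def KillA (n : ℕ → ℕ) (s : ℕ) (O : Lang) : Prop :=
  ∃ T : Th, (idx T + 2) ^ 2 ≤ s ∧ ¬ DeadA O T (sl (n s)) ∧ DeadA O T (sl (n (s + 1)))

/-- the goal of stage `s` -/
def QA (n : ℕ → ℕ) (s : ℕ) (O : Lang) : Prop :=
  KillA n s O ∨ NL s.unpair.1 O (ones (n s)) = V O (ones (n s))

/-- the requirements on the sequence of levels -/
def SeqA (n : ℕ → ℕ) : Prop :=
  StrictMono n ∧ ∀ s, (n s + 2) ^ s < 2 ^ n s ∧ (n s + 2) ^ (s + 2) < n (s + 1)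

/-- the gap function for the sequence `n`: if `sl (n s) < L` then `gap n L` is at least
`sl (n (s + 1))` -/
noncomputable def gap (n : ℕ → ℕ) (L : ℕ) : ℕ := sl (n (L + 1)) + L

/-- the operator of oracle A -/
noncomputable def RA (n : ℕ → ℕ) : Lang → Lang := reg (CodeA n) (gap n) (fun _ => False)

/-! ## Parameters of oracle B -/

/-- code region B -/
def CodeB (O : Lang) (s : List Bool) : Prop :=
  ∃ (T : Th) (m k : ℕ), s = (pad m (Con T k)).enc ∧ Dep T.2 k ≤ m ∧ idx T ≤ m ∧
    ∀ k' ≤ k, ConT O T k'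

/-- the code of the program that accepts `x`, `y` if `|y| = |x|` and `O (saddr x y true)` -/
def e0 : ℕ := val (cEnc (prog1_P true))

/-- a number of length `(n + 2) ^ 5` -/
def zz (n : ℕ) : ℕ := 2 ^ ((n + 2) ^ 5) - 1

/-- the sentence which says that `u` has a secret witness -/
def wit (u : List Bool) : Fm := mu (num e0) (num (val u)) (num (zz u.length))

/-- the axioms of the theories `T_j` -/
def ThirdB (n : ℕ → ℕ) (s : List Bool) : Prop :=
  ∃ (j t : ℕ) (u : List Bool), s = tag j ++ (wit u).enc ∧ t.unpair.1 = j ∧ u.length = n t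

/-- the tag of the theory `T_j` -/
def tauB (j : ℕ) : List Bool := true :: true :: true :: tag j

/-- the pair of theories with index `j` (base, `S`) -/
def thp (j : ℕ) : Th × Th :=
  (((Encodable.decode (α := Cmd) j.unpair.1.unpair.1).getD Cmd.skip, j.unpair.1.unpair.2),
    ((Encodable.decode (α := Cmd) j.unpair.2.unpair.1).getD Cmd.skip, j.unpair.2.unpair.2))

/-- the theory `T_j` -/
def TJ (j : ℕ) : Th := (orAsk (tauB j) (thp j).1.1, exAsk (tauB j) (thp j).1.2)

/-- every `u` of length `n` has a secret witness -/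
def TotB (n : ℕ) (O : Lang) : Prop := ∀ u : List Bool, u.length = n → V O u = true

/-- there is a short proof in `S_j` of `RFN_{T_j}(N)` -/
def ShortB (j a N : ℕ) (O : Lang) : Prop :=
  ∃ l : List Fm, IsProof (Ax O (thp j).2) (l ++ [RFN (TJ j) N]) ∧
    (pEnc (l ++ [RFN (TJ j) N])).length ≤ N ^ a + a

/-- the size of the one-line proofs of `wit u` -/
def NN (c n : ℕ) : ℕ := c * (n + 2) ^ 5

/-- the goal of stage `s` -/
def QB (c : ℕ) (n : ℕ → ℕ) (s : ℕ) (O : Lang) : Prop :=
  TotB (n s) O ↔ ¬ ShortB s.unpair.1 s.unpair.2 (NN c (n s)) O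

/-- the lengths of the questions in the check of a short proof -/
def LB (c s n : ℕ) : ℕ :=
  (NN c n ^ s.unpair.2 + s.unpair.2) +
    (NN c n ^ s.unpair.2 + s.unpair.2 + 2) ^ (thp s.unpair.1).2.2 + sl n + 1

/-- the requirements on the sequence of levels -/
def SeqB (c : ℕ) (n : ℕ → ℕ) : Prop :=
  StrictMono n ∧ ∀ s, (LB c s (n s) + 2) ^ 8 < 2 ^ n s ∧ LB c s (n s) < n (s + 1)

/-- the operator of oracle B -/
noncomputable def RB (n : ℕ → ℕ) : Lang → Lang := reg CodeB (gap n) (ThirdB n)

end Pool.Agent.RF
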